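import Pool.Agent.H5.Para

set_option autoImplicit false

open Metric Set Pool.Agent.H5.Para

namespace Pool.Agent.Results.MP_bec8f7_co.Fails

/-- In every dimension `d ≥ 5` some convex body has no inscribed parallelotope. -/
theorem result (d : ℕ) (hd : 5 ≤ d) : ∃ C : Set (EuclideanSpace ℝ (Fin d)),
    IsCompact C ∧ Convex ℝ C ∧ (interior C).Nonempty ∧
    ¬ ∃ (a : EuclideanSpace ℝ (Fin d)) (v : Fin d → EuclideanSpace ℝ (Fin d)),
      LinearIndependent ℝ v ∧ ∀ S : Finset (Fin d), a + ∑ i ∈ S, v i ∈ frontier C := by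
  have hlt : d + d * d < 2 ^ d := by
    induction d, hd using Nat.le_induction with
    | base => norm_num
    | succ n hn ih => rw [pow_succ]; nlinarith
  have := complete (E := EuclideanSpace ℝ (Fin d))
  let B : ConvexBody (EuclideanSpace ℝ (Fin d)) :=
    ⟨closedBall 0 2, convex_closedBall _ _, isCompact_closedBall _ _, ⟨0, by simp⟩⟩
  obtain ⟨K, hK1, hK2⟩ := (dense_of_mem_residual (main (E := EuclideanSpace ℝ (Fin d)) (by simp)
    hlt)).inter_open_nonempty (ball B 1) isOpen_ball ⟨B, by simp⟩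
  refine ⟨K, K.isCompact, K.convex, ⟨0, ?_⟩, hK2⟩
  have h1 : ball 0 (2 - 1) ⊆ (K : Set (EuclideanSpace ℝ (Fin d))) := by
    refine ball_sub K.isCompact K.convex K.nonempty one_pos fun z hz => ?_
    refine exists_dist_lt_of_hausdorffDist_lt (s := (B : Set _)) (ball_subset_closedBall hz) ?_
      ConvexBody.hausdorffEDist_ne_top
    rw [ConvexBody.hausdorffDist_coe, dist_comm]
    exact hK1
  exact interior_maximal h1 isOpen_ball (by norm_num)

end Pool.Agent.Results.MP_bec8f7_co.Fails
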